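import Pool.Agent.P.MP_e76938_co.Rdt

set_option autoImplicit false

namespace Pool.Agent.Results.MP_e76938_co.CycleTwoMod

/-- The set of real constants `c` such that every graph on `n ≥ 1` vertices with at least `c n`
edges contains a cycle of length `l` modulo `m`. -/
def Forcing (l m : ℕ) : Set ℝ :=
  {c : ℝ | ∀ n : ℕ, 1 ≤ n → ∀ G : SimpleGraph (Fin n), c * n ≤ (G.edgeSet.ncard : ℝ) →
    ∃ (v : Fin n) (w : G.Walk v v), w.IsCycle ∧ w.length ≡ l [MOD m]}

/-- For every `k ≥ 2`: `c_{2,2k} = (2k+1)/2`, and the infimum is attained. -/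
theorem result : ∀ k : ℕ, 2 ≤ k →
    sInf (Forcing 2 (2 * k)) = (2 * k + 1 : ℝ) / 2 ∧
      IsLeast (Forcing 2 (2 * k)) ((2 * k + 1 : ℝ) / 2) := by
  intro k hk
  have h := Pool.Agent.P.MP_e76938_co.final
  exact ⟨(h.2 k hk).csInf_eq, h.2 k hk⟩

end Pool.Agent.Results.MP_e76938_co.CycleTwoMod
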